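import Pool.Agent.H.MP_53e59f_lc.SL.Cross
import Pool.Agent.H.MP_53e59f_lc.SH.Cnt

/-!
# The number of the sets of tokens
-/

namespace Pool.Agent.SL

open Pool.Agent.SF Pool.Agent.SH

theorem count_Rs (s : ℕ) {u v : List ℕ} {P : ℕ} (hP : 0 < P) (hl : PerL P u v)
    (k : ℕ) :
    {S : Set ℕ | ∃ w : List ℕ, w.length = k ∧ (∀ a ∈ w, a < s) ∧ S = Rs u v w}.Finite ∧
      {S : Set ℕ | ∃ w : List ℕ, w.length = k ∧ (∀ a ∈ w, a < s) ∧ S = Rs u v w}.ncard ≤
        (u.length + 1) ^ 2 * 2 ^ P := by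
  classical
  let Φ : Fin (u.length + 1) × Fin (u.length + 1) × Finset (Fin P) → Set ℕ :=
    fun c => dcd P c.1 c.2.1 {i | ∃ j ∈ c.2.2, (j : ℕ) = i}
  have hsub : {S : Set ℕ | ∃ w : List ℕ, w.length = k ∧ (∀ a ∈ w, a < s) ∧ S = Rs u v w} ⊆
      Set.range Φ := by
    rintro S ⟨w, -, -, rfl⟩
    obtain ⟨l, r, Q, h⟩ := dcd_eq (N := u.length) hP (S := Rs u v w) (fun z hz => hz.1)
      (fun x hx y hy hxy => SL.cross hP hl w x y hx hy hxy)
    exact ⟨(l, r, Q), h.symm⟩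
  have hfin : (Set.range Φ).Finite := Set.finite_range Φ
  refine ⟨hfin.subset hsub, ?_⟩
  calc _ ≤ (Set.range Φ).ncard := Set.ncard_le_ncard hsub hfin
    _ ≤ Nat.card (Fin (u.length + 1) × Fin (u.length + 1) × Finset (Fin P)) := by
      rw [← Set.image_univ]
      refine (Set.ncard_image_le (Set.finite_univ)).trans ?_
      rw [Set.ncard_univ]
    _ = (u.length + 1) ^ 2 * 2 ^ P := by
      rw [Nat.card_eq_fintype_card, Fintype.card_prod, Fintype.card_prod, Fintype.card_fin,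
        Fintype.card_finset, Fintype.card_fin]
      ring

end Pool.Agent.SL
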