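import Pool.Agent.H.MP_53e59f_lc.SH.Itr
import Pool.Agent.H.MP_53e59f_lc.SL.Cnt
import Pool.Agent.H.MP_53e59f_lc.SF.Corr
import Pool.Agent.H.MP_53e59f_lc.SH.Corr

/-!
# Correctness for instances (as SF/Corr)
-/

namespace Pool.Agent.SL

open Pool.Agent.SF Pool.Agent.SH

private theorem Mp_factor {α β : Type} {f : α → β} {u : List α} {a : List β} (h : a <:+: u.map f) :
    ∃ a', a' <:+: u ∧ a = a'.map f := by
  obtain ⟨s, t, hst⟩ := h
  obtain ⟨l₁, l₂, rfl, h1, h2⟩ := List.map_eq_append_iff.1 hst.symm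
  obtain ⟨l₃, l₄, rfl, h3, h4⟩ := List.map_eq_append_iff.1 h1
  exact ⟨l₄, ⟨l₃, l₂, rfl⟩, h4.symm⟩

theorem PerL_map {α β : Type} {f : α → β} (hf : Function.Injective f) {P : ℕ} {u v : List α}
    (h : PerL P u v) : PerL P (u.map f) (v.map f) := by
  intro a b ha hb hab
  obtain ⟨a', ha', rfl⟩ := Mp_factor ha
  obtain ⟨b', hb', rfl⟩ := Mp_factor hb
  obtain ⟨h1, h2⟩ := h a' b' ha' hb' ((List.map_perm_map_iff hf).1 hab)
  exact ⟨SH.Per_map f h1, SH.Per_map f h2⟩

/-- The algorithm for two words `u`, `v` (the words of the instance). -/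
theorem alg_dat (x : Inst) {P C : ℕ} (u v : List (Fin x.s)) (hP : 0 < P) (hl : PerL P u v)
    (hC : x.m * ((u.length + 1) ^ 2 * 2 ^ P) ≤ C) :
    ((alg x.s x.dat.2.1 x.dat.2.2.1 x.dat.2.2.2.1 (u.map Fin.val) (v.map Fin.val) C).1 = true ↔
      ∃ w, w ∈ x.M.accepts ∧ ¬ Sh u v w) ∧
    ((alg x.s x.dat.2.1 x.dat.2.2.1 x.dat.2.2.2.1 (u.map Fin.val) (v.map Fin.val) C).2 = true ↔
      ∃ w, w ∉ x.M.accepts ∧ Sh u v w) := by
  have hm : ∀ w : List ℕ, (∀ a ∈ w, a < x.s) → ev x.dat.2.1 x.dat.2.2.1 w < x.m := by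
    intro w hw
    obtain ⟨w', rfl⟩ := ex_map hw
    rw [ev_dat]
    exact (x.M.eval w').2
  have hC' : x.m * (((u.map Fin.val).length + 1) ^ 2 * 2 ^ P) ≤ C := by
    rw [List.length_map]
    exact hC
  obtain ⟨h1, h2⟩ := SH.alg_iff (acc := x.dat.2.2.2.1)
    (fun k => SL.count_Rs x.s hP (PerL_map Fin.val_injective hl) k) hm hC'
  refine ⟨h1.trans ?_, h2.trans ?_⟩
  · constructor
    · rintro ⟨w, -, hw, ha, hs⟩
      obtain ⟨w', rfl⟩ := ex_map hw
      exact ⟨w', (acc_dat x w').1 ha, fun h => hs ((Sh_map Fin.val_injective).2 h)⟩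
    · have key : ∀ w : List (Fin x.s), w ∈ x.M.accepts → ¬ Sh u v w →
          w.length ≤ u.length + v.length + x.m → ∃ w : List ℕ,
          w.length ≤ (u.map Fin.val).length + (v.map Fin.val).length + x.dat.2.1.length ∧
          (∀ a ∈ w, a < x.s) ∧ x.dat.2.2.2.1.getD (ev x.dat.2.1 x.dat.2.2.1 w) false = true ∧
          ¬ Sh (u.map Fin.val) (v.map Fin.val) w := by
        intro w ha hs hl
        refine ⟨w.map Fin.val, ?_, Corr_lt w, (acc_dat x w).2 ha,
          fun h => hs ((Sh_map Fin.val_injective).1 h)⟩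
        rw [List.length_map, List.length_map, List.length_map, Corr_len]
        exact hl
      rintro ⟨w, ha, hs⟩
      rcases Nat.lt_or_ge (u.length + v.length) w.length with h | h
      · obtain ⟨w', ha', h1', h2'⟩ := pump x.M (u.length + v.length) ha h
        refine key w' ha' (fun h3 => ?_) h2'
        have h4 := h3.length
        omega
      · exact key w ha hs (by omega)
  · constructor
    · rintro ⟨w, -, hw, ha, hs⟩
      obtain ⟨w', rfl⟩ := ex_map hw
      exact ⟨w', (Corr_acc x w').1 ha, (Sh_map Fin.val_injective).1 hs⟩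
    · rintro ⟨w, ha, hs⟩
      refine ⟨w.map Fin.val, ?_, Corr_lt w, (Corr_acc x w).2 ha, (Sh_map Fin.val_injective).2 hs⟩
      rw [List.length_map, List.length_map, List.length_map, hs.length]
      omega

theorem dec_iff (x : Inst) {P c : ℕ} (hP : 0 < P) (hP' : P ≤ c * Nat.log 2 x.encode.length)
    (hl : PerL P x.u x.v) :
    ((SH.dec c x.dat).1 = true ↔ ∃ w, w ∈ x.M.accepts ∧ ¬ Sh x.u x.v w) ∧
    ((SH.dec c x.dat).2 = true ↔ ∃ w, w ∉ x.M.accepts ∧ Sh x.u x.v w) := by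
  unfold SH.dec
  exact SL.alg_dat x x.u x.v hP hl (SH.cap_ge x hP')

end Pool.Agent.SL
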