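import Pool.Agent.H.MP_53e59f_lc.SH.Per

/-!
# Periods of the common factors
-/

namespace Pool.Agent.SL

open Pool.Agent.SH

/-- `P` is a period of every factor `a` of `u` and every factor `b` of `v` which are permutations of each
other. -/
def PerL {α : Type} (P : ℕ) (u v : List α) : Prop :=
  ∀ a b : List α, a <:+: u → b <:+: v → a.Perm b → Per P a ∧ Per P b

end Pool.Agent.SL
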