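import Pool.Agent.H.MP_53e59f_lc.SG.Swp
import Pool.Agent.H.MP_53e59f_lc.SL.Defs

/-!
# Tokens of words with periodic common factors

If `x` and `y` are tokens and `x + P ≤ y` then `x + P` and `y - P` are tokens.
-/

namespace Pool.Agent.SL

open Pool.Agent.SF Pool.Agent.SH

theorem sub_per {α : Type} {P : ℕ} {l : List α} {x y : ℕ} (h : Per P ((l.take y).drop x))
    (hy : y ≤ l.length) (p : ℕ) (h1 : x ≤ p) (h2 : p + P < y) : l[p + P]? = l[p]? := by
  have h3 := h (p - x) (by rw [List.length_drop, List.length_take, Nat.min_eq_left hy]; omega)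
  rw [List.getElem?_drop, List.getElem?_drop, List.getElem?_take, List.getElem?_take,
    if_pos (by omega), if_pos (by omega)] at h3
  have e1 : x + (p - x + P) = p + P := by omega
  have e2 : x + (p - x) = p := by omega
  rwa [e1, e2] at h3

variable {P : ℕ} {u v : List ℕ}

theorem win (h : PerL P u v) {w : List ℕ} {x y : ℕ} (hx : Tk u v w x) (hy : Tk u v w y)
    (hxy : x ≤ y) : (∀ p, x ≤ p → p + P < y → u[p + P]? = u[p]?) ∧
      ∀ p, w.length - y ≤ p → p + P < w.length - x → v[p + P]? = v[p]? := by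
  obtain ⟨h1, h2⟩ := h ((u.take y).drop x) ((v.take (w.length - x)).drop (w.length - y))
    ((List.drop_suffix _ _).isInfix.trans (List.take_prefix _ _).isInfix)
    ((List.drop_suffix _ _).isInfix.trans (List.take_prefix _ _).isInfix)
    (SG.perm_tokens hx hy hxy)
  exact ⟨fun p => sub_per h1 hy.1 p, fun p => sub_per h2 hx.2.2.1 p⟩

theorem cross (hP : 0 < P) (h : PerL P u v) (w : List ℕ) :
    ∀ x y, Tk u v w x → Tk u v w y → x + P ≤ y → Tk u v w (x + P) ∧ Tk u v w (y - P) := by
  induction w using List.reverseRecOn with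
  | nil =>
    intro x y hx hy h
    rw [Tk_nil] at hx hy
    omega
  | append_singleton w a ih =>
    intro x y hx hy hle
    by_cases he : y = x + P
    · subst he
      rw [Nat.add_sub_cancel]
      exact ⟨hy, hx⟩
    have hlt : x + P + 1 ≤ y := by omega
    have hwl : (w ++ [a]).length = w.length + 1 := by simp
    obtain ⟨W1, W2⟩ := win h hx hy (by omega)
    rw [hwl] at W2
    have hyl : y ≤ w.length + 1 := by
      have := hy.2.1
      rwa [hwl] at this
    -- the predecessors
    obtain ⟨x', hx'1, hx'2, hx'3⟩ : ∃ x', Tk u v w x' ∧ x' ≤ x ∧ x ≤ x' + 1 := by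
      rcases (Tk_snoc u v w a x).1 hx with ⟨h1, _⟩ | ⟨h0, h1, _⟩
      · exact ⟨x, h1, le_rfl, by omega⟩
      · exact ⟨x - 1, h1, by omega, by omega⟩
    obtain ⟨y', hy'1, hy'2, hy'3⟩ : ∃ y', Tk u v w y' ∧ y' ≤ y ∧ y ≤ y' + 1 := by
      rcases (Tk_snoc u v w a y).1 hy with ⟨h1, _⟩ | ⟨h0, h1, _⟩
      · exact ⟨y, h1, le_rfl, by omega⟩
      · exact ⟨y - 1, h1, by omega, by omega⟩
    constructor
    · rcases (Tk_snoc u v w a x).1 hx with ⟨h1, h2⟩ | ⟨h0, h1, h2⟩
      · have h3 := (ih x y' h1 hy'1 (by omega)).1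
        refine (Tk_snoc u v w a (x + P)).2 (Or.inl ⟨h3, ?_⟩)
        have h4 : x + P ≤ w.length := h3.2.1
        have h6 := W2 (w.length - (x + P)) (by omega) (by omega)
        have h7 : w.length - (x + P) + P = w.length - x := by omega
        rw [h7, h2] at h6
        exact h6.symm
      · have h3 := (ih (x - 1) y' h1 hy'1 (by omega)).1
        obtain ⟨V1, V2⟩ := win h h1 hy'1 (by omega)
        refine (Tk_snoc u v w a (x + P)).2 (Or.inr ⟨by omega, ?_, ?_⟩)
        · have h4 : x + P - 1 = x - 1 + P := by omega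
          rw [h4]
          exact h3
        · have h4 : x + P - 1 = x - 1 + P := by omega
          rw [h4, V1 (x - 1) le_rfl (by omega)]
          exact h2
    · rcases (Tk_snoc u v w a y).1 hy with ⟨h1, h2⟩ | ⟨h0, h1, h2⟩
      · have h3 := (ih x' y hx'1 h1 (by omega)).2
        obtain ⟨V1, V2⟩ := win h hx'1 h1 (by omega)
        refine (Tk_snoc u v w a (y - P)).2 (Or.inl ⟨h3, ?_⟩)
        have h4 : y ≤ w.length := h1.2.1
        have h6 := V2 (w.length - y) le_rfl (by omega)
        have h7 : w.length - y + P = w.length - (y - P) := by omega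
        rw [h7, h2] at h6
        exact h6
      · have h3 := (ih x' (y - 1) hx'1 h1 (by omega)).2
        refine (Tk_snoc u v w a (y - P)).2 (Or.inr ⟨by omega, ?_, ?_⟩)
        · have h4 : y - P - 1 = y - 1 - P := by omega
          rw [h4]
          exact h3
        · have h4 : y - P - 1 = y - 1 - P := by omega
          have h5 := W1 (y - 1 - P) (by omega) (by omega)
          have h6 : y - 1 - P + P = y - 1 := by omega
          rw [h6, h2] at h5
          rw [h4]
          exact h5.symm

end Pool.Agent.SL
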